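import Mathlib
import Pool.Agent.W307.Kung3

/-!
# Size functions of classes `EX(M_α) ∩ U(q)`: the eventual formula is false for all `q ≥ 4`

For a prime power `s` and `q ≥ s ^ 2` exclude the projective planes `PG(2, r)`, `s < r ≤ q`.
Then `s` is the largest prime power `r ≤ q` such that no excluded matroid is `GF(r)`-representable.
The class still contains the matroids of the vectors of `GF(s ^ 2) × GF(s) ^ (n - 1)`, which are
elementary quotients of `PG(n, s)` and have `(s ^ (n + 1) - 1) / (s - 1) - s` points.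
-/

set_option autoImplicit false

namespace Pool.Agent.Results.MP_f02e69_co.KungSizeDisproof

open Set Module Submodule Pool.Agent.Helper236 Pool.Agent.W307.Kung

/-- `M` is representable over the field `F`: its elements can be labelled by vectors of some
`F ^ n` so that independence in `M` is linear independence. -/
def RepresentableOver (F : Type) [Field F] {α : Type} (M : Matroid α) : Prop :=
  ∃ (n : ℕ) (v : α → (Fin n → F)), ∀ I ⊆ M.E, (M.Indep I ↔ LinearIndepOn F v I)

/-- `M` is representable over a field with `r` elements, that is, `M` is in `L(r)`. -/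
def RepGF (r : ℕ) {α : Type} (M : Matroid α) : Prop :=
  ∃ (F : Type) (_ : Field F) (_ : Finite F), Nat.card F = r ∧ RepresentableOver F M

/-- Isomorphism of matroids: a bijection of the ground sets preserving independence. -/
def MatroidIso {α β : Type} (M : Matroid α) (N : Matroid β) : Prop :=
  ∃ f : α → β, BijOn f M.E N.E ∧ ∀ I ⊆ M.E, (M.Indep I ↔ N.Indep (f '' I))

/-- `M` has a minor isomorphic to `N`. -/
def HasMinor {α β : Type} (M : Matroid α) (N : Matroid β) : Prop :=
  ∃ M' : Matroid α, M'.IsMinor M ∧ MatroidIso M' N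

/-- `M` is in `U(q)`: it has no minor isomorphic to the line `U_{2,q+2}`. -/
def InU (q : ℕ) {α : Type} (M : Matroid α) : Prop :=
  ¬ ∃ N : Matroid α, N.IsMinor M ∧ N.E.encard = q + 2 ∧ ∀ I ⊆ N.E, (N.Indep I ↔ I.encard ≤ 2)

/-- The number of points (rank-one flats) of `M`. -/
noncomputable def numPoints {α : Type} (M : Matroid α) : ℕ∞ :=
  {P : Set α | M.IsFlat P ∧ M.eRk P = 1}.encard

/-- The size function at `n` of the class `EX(𝓕) ∩ U(q)`: the supremum of the numbers of points of
the finite matroids of rank `n` in `U(q)` that have no minor isomorphic to a member of `𝓕`. -/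
noncomputable def sizeFn (q : ℕ) (𝓕 : Set (Matroid ℕ)) (n : ℕ) : ℕ∞ :=
  sSup {k : ℕ∞ | ∃ (α : Type) (M : Matroid α), M.E.Finite ∧ InU q M ∧
    (∀ N ∈ 𝓕, ¬ HasMinor M N) ∧ M.eRank = n ∧ numPoints M = k}

/-! ### Representable matroids are in `U(q)` -/

section lemmas
variable {F : Type} [Field F] {α β : Type}

theorem pair_facts {V : Type} [AddCommGroup V] [Module F V] (w : α → V) (T : Set α)
    (h : ∀ x ∈ T, ∀ y ∈ T, LinearIndepOn F w {x, y}) :
    (∀ x ∈ T, w x ≠ 0) ∧ ∀ x ∈ T, ∀ y ∈ T, ∀ c : F, w x = c • w y → x = y := by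
  constructor
  · intro x hx h0
    have := h x hx x hx
    rw [pair_eq_singleton, linearIndepOn_singleton_iff] at this
    exact this h0
  · intro x hx y hy c hc
    by_contra hne
    have := h x hx y hy
    rw [LinearIndepOn.pair_iff w hne] at this
    have h1 := this 1 (-c) (by rw [hc]; simp)
    exact one_ne_zero h1.1

theorem inU_of_rep {V : Type} [AddCommGroup V] [Module F V] [Finite F] {M : Matroid α} {v : α → V}
    (hv : Rep F M v) {q : ℕ} (hq : Nat.card F ≤ q) : InU q M := by
  rintro ⟨N, hN, hcard, hind⟩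
  obtain ⟨C, D, hC, -, -, rfl⟩ := hN.exists_eq_contract_delete_disjoint
  have hrep := hv.minor C D hC
  set N := (M.contract C).delete D with hNdef
  set w := (span F (v '' C)).mkQ ∘ v with hw
  have hfin : N.E.Finite := by
    apply Set.finite_of_encard_eq_coe (k := q + 2)
    rw [hcard]
    norm_cast
  have hpair : ∀ x ∈ N.E, ∀ y ∈ N.E, LinearIndepOn F w {x, y} := by
    intro x hx y hy
    have hsub : ({x, y} : Set α) ⊆ N.E := by
      rintro z (rfl | rfl)
      · exact hx
      · exact hy
    rw [← hrep _ hsub, hind _ hsub]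
    refine (encard_insert_le _ _).trans ?_
    rw [encard_singleton]
    norm_num
  obtain ⟨h0, h1⟩ := pair_facts w N.E hpair
  have hrk : finrank F (span F (w '' N.E)) ≤ 2 := by
    refine finrank_span_le_of_indep w N.E hfin 2 fun I hI hIi => ?_
    rw [← hrep _ hI, hind _ hI] at hIi
    rw [← (hfin.subset hI).cast_ncard_eq] at hIi
    exact_mod_cast hIi
  have h2 := (ncard_le_of_finrank_span (K := F) w N.E
    (FiniteDimensional.span_of_finite F (hfin.image w)) hrk h0 h1).2
  have h3 : N.E.ncard = q + 2 := by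
    rw [← hfin.cast_ncard_eq] at hcard
    exact_mod_cast hcard
  simp [Finset.sum_range_succ] at h2
  omega

/-- the properties of `PG(2, r)` that are used. -/
structure PlaneLike (r : ℕ) (M : Matroid α) : Prop where
  card : M.E.encard = (r ^ 2 + r + 1 : ℕ)
  pair : ∀ x ∈ M.E, ∀ y ∈ M.E, M.Indep {x, y}
  rank : ∀ I ⊆ M.E, M.Indep I → I.encard ≤ 3
  line : ∀ T ⊆ M.E, (∀ I ⊆ T, M.Indep I → I.encard ≤ 2) → T.encard ≤ (r + 1 : ℕ)

theorem PlaneLike.of_iso {r : ℕ} {M : Matroid α} {N : Matroid β} (hN : PlaneLike r N)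
    (h : MatroidIso M N) : PlaneLike r M := by
  obtain ⟨f, hf, hind⟩ := h
  have himg : ∀ T ⊆ M.E, f '' T ⊆ N.E := fun T hT => (image_mono hT).trans hf.mapsTo.image_subset
  have henc : ∀ T ⊆ M.E, (f '' T).encard = T.encard := fun T hT =>
    (hf.injOn.mono hT).encard_image
  refine ⟨?_, ?_, ?_, ?_⟩
  · rw [← henc _ subset_rfl, hf.image_eq, hN.card]
  · intro x hx y hy
    have hsub : ({x, y} : Set α) ⊆ M.E := by
      rintro z (rfl | rfl)
      · exact hx
      · exact hy
    rw [hind _ hsub, image_pair]
    exact hN.pair _ (hf.mapsTo hx) _ (hf.mapsTo hy)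
  · intro I hI hIi
    rw [← henc _ hI]
    exact hN.rank _ (himg I hI) ((hind I hI).1 hIi)
  · intro T hT h
    rw [← henc _ hT]
    refine hN.line _ (himg T hT) fun J hJ hJi => ?_
    obtain ⟨I, hI, rfl⟩ := subset_image_iff.1 hJ
    rw [henc _ (hI.trans hT)]
    exact h I hI ((hind I (hI.trans hT)).2 hJi)

theorem not_repGF_of_planeLike {r s : ℕ} (hrs : s < r) {M : Matroid α} (hM : PlaneLike r M) :
    ¬ RepGF s M := by
  rintro ⟨F, _, _, hF, n, v, hv⟩
  have hfin : M.E.Finite := Set.finite_of_encard_eq_coe hM.card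
  have hpair : ∀ x ∈ M.E, ∀ y ∈ M.E, LinearIndepOn F v {x, y} := by
    intro x hx y hy
    have hsub : ({x, y} : Set α) ⊆ M.E := by
      rintro z (rfl | rfl)
      · exact hx
      · exact hy
    rw [← hv _ hsub]
    exact hM.pair x hx y hy
  obtain ⟨h0, h1⟩ := pair_facts v M.E hpair
  have hrk : finrank F (span F (v '' M.E)) ≤ 3 := by
    refine finrank_span_le_of_indep v M.E hfin 3 fun I hI hIi => ?_
    rw [← hv _ hI] at hIi
    have := hM.rank I hI hIi
    rw [← (hfin.subset hI).cast_ncard_eq] at this
    exact_mod_cast this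
  have h2 := (ncard_le_of_finrank_span (K := F) v M.E
    (FiniteDimensional.span_of_finite F (hfin.image v)) hrk h0 h1).2
  have h3 : M.E.ncard = r ^ 2 + r + 1 := by
    have := hM.card
    rw [← hfin.cast_ncard_eq] at this
    exact_mod_cast this
  simp [Finset.sum_range_succ] at h2
  nlinarith

theorem isPrimePow_exists_field {r : ℕ} (hr : IsPrimePow r) :
    ∃ (F : Type) (_ : Field F) (_ : Finite F), Nat.card F = r := by
  rw [isPrimePow_nat_iff] at hr
  obtain ⟨p, k, hp, hk, rfl⟩ := hr
  have : Fact p.Prime := ⟨hp⟩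
  exact ⟨GaloisField p k, inferInstance, inferInstance, GaloisField.card p k hk.ne'⟩

theorem exists_plane {r : ℕ} (hr : IsPrimePow r) :
    ∃ N : Matroid ℕ, N.E.Finite ∧ PlaneLike r N ∧ RepGF r N := by
  obtain ⟨F, _, _, hF⟩ := isPrimePow_exists_field hr
  have hcardP : Nat.card (Projectivization F (Fin 3 → F)) = r ^ 2 + r + 1 := by
    rw [Projectivization.card_of_finrank F (Fin 3 → F) (n := 3) (by simp), hF]
    simp [Finset.sum_range_succ]
    ring
  have : Finite (Projectivization F (Fin 3 → F)) := inferInstance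
  let e : Projectivization F (Fin 3 → F) ≃ Fin (r ^ 2 + r + 1) :=
    (Finite.equivFinOfCardEq hcardP)
  let v : ℕ → (Fin 3 → F) := fun i =>
    if h : i < r ^ 2 + r + 1 then (e.symm ⟨i, h⟩).rep else 0
  let E : Set ℕ := {i | i < r ^ 2 + r + 1}
  have hE : E.Finite := Set.finite_lt_nat _
  have hEcard : E.ncard = r ^ 2 + r + 1 := by
    have : E = ((Finset.range (r ^ 2 + r + 1) : Finset ℕ) : Set ℕ) := by
      ext i
      simp [E]
    rw [this, Set.ncard_coe_finset, Finset.card_range]
  let N := linMatroid F v E hE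
  have hrep : Rep F N v := linMatroid_rep v E hE
  have hv : ∀ i ∈ E, ∀ j ∈ E, ∀ c : F, v i = c • v j → i = j := by
    intro i hi j hj c hc
    have hi' : i < r ^ 2 + r + 1 := hi
    have hj' : j < r ^ 2 + r + 1 := hj
    simp only [v, hi', hj', dif_pos] at hc
    have h1 : e.symm ⟨i, hi'⟩ = e.symm ⟨j, hj'⟩ := by
      rw [← (e.symm ⟨i, hi'⟩).mk_rep, ← (e.symm ⟨j, hj'⟩).mk_rep, Projectivization.mk_eq_mk_iff']
      exact ⟨c, hc.symm⟩
    have := e.symm.injective h1
    simpa using this
  have hv0 : ∀ i ∈ E, v i ≠ 0 := by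
    intro i hi
    have hi' : i < r ^ 2 + r + 1 := hi
    simp only [v, hi', dif_pos]
    exact Projectivization.rep_nonzero _
  have hpair : ∀ x ∈ E, ∀ y ∈ E, LinearIndepOn F v {x, y} := by
    intro x hx y hy
    by_cases hxy : x = y
    · rw [hxy, pair_eq_singleton, linearIndepOn_singleton_iff]
      exact hv0 y hy
    · rw [LinearIndepOn.pair_iff v hxy]
      intro a b hab
      by_cases ha : a = 0
      · rw [ha, zero_smul, zero_add] at hab
        exact ⟨ha, (smul_eq_zero.1 hab).resolve_right (hv0 y hy)⟩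
      · exfalso
        apply hxy
        apply hv x hx y hy (-(a⁻¹ * b))
        have h2 : a • v x = -(b • v y) := eq_neg_of_add_eq_zero_left hab
        calc v x = a⁻¹ • (a • v x) := by rw [smul_smul, inv_mul_cancel₀ ha, one_smul]
          _ = -(a⁻¹ * b) • v y := by rw [h2, smul_neg, smul_smul, neg_smul]
  refine ⟨N, hE, ⟨?_, ?_, ?_, ?_⟩, F, inferInstance, inferInstance, hF, 3, v, hrep⟩
  · change E.encard = _
    rw [← hE.cast_ncard_eq, hEcard]
  · intro x hx y hy
    have hsub : ({x, y} : Set ℕ) ⊆ N.E := by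
      rintro z (rfl | rfl)
      · exact hx
      · exact hy
    exact (hrep _ hsub).2 (hpair x hx y hy)
  · intro I hI hIi
    have h1 := (hrep _ hI).1 hIi
    have h2 := ncard_le_of_linearIndepOn v E hE 3 (⊤ : Submodule F (Fin 3 → F)) (by simp)
      (by rw [finrank_top]; simp) hI h1
    rw [← (hE.subset hI).cast_ncard_eq]
    exact_mod_cast h2
  · intro T hT h
    have hTf : T.Finite := hE.subset hT
    have hrk : finrank F (span F (v '' T)) ≤ 2 := by
      refine finrank_span_le_of_indep v T hTf 2 fun I hI hIi => ?_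
      have h1 := h I hI ((hrep _ (hI.trans hT)).2 hIi)
      rw [← (hTf.subset hI).cast_ncard_eq] at h1
      exact_mod_cast h1
    have h2 := (ncard_le_of_finrank_span (K := F) v T
      (FiniteDimensional.span_of_finite F (hTf.image v)) hrk (fun x hx => hv0 x (hT hx))
      (fun x hx y hy => hv x (hT hx) y (hT hy))).2
    rw [← hTf.cast_ncard_eq]
    rw [hF] at h2
    simp only [Finset.sum_range_succ, Finset.range_zero, Finset.sum_empty, pow_zero, pow_one,
      zero_add] at h2
    exact_mod_cast (by omega : T.ncard ≤ r + 1)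

end lemmas

/-! ### The dense matroids -/

section dense
variable {K F : Type} [Field K] [Field F] [Algebra K F] {m : ℕ}

/-- the elements: the vector `(1, 0)` and one vector `(a, b)` for each `a ∈ F` and each point `b` of
the projective space of `K ^ m`. -/
abbrev Elt (K F : Type) [Field K] (m : ℕ) : Type :=
  Option (F × Projectivization K (Fin m → K))

/-- first coordinate -/
def fstV : Elt K F m → F
  | none => 1
  | some (a, _) => a

/-- second coordinate -/
noncomputable def sndV : Elt K F m → (Fin m → K)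
  | none => 0
  | some (_, P) => P.rep

theorem vec_ne_zero (x : Elt K F m) : vec (F := F) fstV sndV x ≠ 0 := by
  rcases x with _ | ⟨a, P⟩
  · intro h
    have := congrArg Prod.fst h
    simp [vec, fstV] at this
  · intro h
    have h1 := congrArg Prod.snd h
    apply P.rep_nonzero
    funext i
    have := congrFun h1 i
    simpa [vec, sndV] using this

theorem vec_inj (x y : Elt K F m) (c : F)
    (h : vec (F := F) fstV sndV x = c • vec fstV sndV y) : x = y := by
  have hfst := congrArg Prod.fst h
  have hsnd : ∀ i, algebraMap K F (sndV x i) = c * algebraMap K F (sndV y i) := fun i =>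
    congrFun (congrArg Prod.snd h) i
  simp only [vec, Prod.smul_fst, smul_eq_mul] at hfst
  rcases x with _ | ⟨a, P⟩
  · rcases y with _ | ⟨b, Q⟩
    · rfl
    · exfalso
      simp only [fstV] at hfst
      have hc : c ≠ 0 := by
        rintro rfl
        simp at hfst
      apply Q.rep_nonzero
      funext i
      have := hsnd i
      simp only [sndV, Pi.zero_apply, map_zero] at this
      have h2 := (mul_eq_zero.1 this.symm).resolve_left hc
      simpa using h2
  · rcases y with _ | ⟨b, Q⟩
    · exfalso
      apply P.rep_nonzero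
      funext i
      have := hsnd i
      simp only [sndV, Pi.zero_apply, map_zero, mul_zero] at this
      simpa using this
    · simp only [fstV] at hfst
      simp only [sndV] at hsnd
      obtain ⟨i, hi⟩ : ∃ i, Q.rep i ≠ 0 := by
        by_contra hcon
        push Not at hcon
        exact Q.rep_nonzero (funext hcon)
      set k : K := P.rep i / Q.rep i with hk
      have hck : c = algebraMap K F k := by
        have h1 := hsnd i
        have h2 : algebraMap K F (Q.rep i) ≠ 0 := by simpa using hi
        rw [hk, map_div₀, h1, mul_div_assoc, div_self h2, mul_one]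
      have hPQ : P.rep = k • Q.rep := by
        funext j
        have h1 := hsnd j
        rw [hck, ← map_mul] at h1
        exact (algebraMap K F).injective h1
      have hPQ' : P = Q := by
        rw [← P.mk_rep, ← Q.mk_rep, Projectivization.mk_eq_mk_iff']
        exact ⟨k, hPQ.symm⟩
      subst hPQ'
      have hk1 : k = 1 := by
        rw [hk]
        exact div_self hi
      rw [hck, hk1, map_one, one_mul] at hfst
      rw [hfst]

variable [Finite K] [Finite F]

instance : Finite (Elt K F m) := inferInstance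

variable (K F m) in
/-- the matroid of the vectors of `F × K ^ m`. -/
noncomputable def denseM : Matroid (Elt K F m) :=
  linMatroid F (vec (K := K) (F := F) (m := m) fstV sndV) univ (toFinite _)

theorem denseM_rep : Rep F (denseM K F m) (vec (K := K) (F := F) (m := m) fstV sndV) :=
  linMatroid_rep _ _ _

theorem dense_pair (x y : Elt K F m) :
    LinearIndepOn F (vec (K := K) (F := F) (m := m) fstV sndV) {x, y} := by
  by_cases hxy : x = y
  · rw [hxy, pair_eq_singleton, linearIndepOn_singleton_iff]
    exact vec_ne_zero y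
  · rw [LinearIndepOn.pair_iff _ hxy]
    intro a b hab
    by_cases ha : a = 0
    · rw [ha, zero_smul, zero_add] at hab
      exact ⟨ha, (smul_eq_zero.1 hab).resolve_right (vec_ne_zero y)⟩
    · exfalso
      apply hxy
      apply vec_inj x y (-(a⁻¹ * b))
      have h2 := eq_neg_of_add_eq_zero_left hab
      calc vec fstV sndV x = a⁻¹ • (a • vec fstV sndV x) := by
            rw [smul_smul, inv_mul_cancel₀ ha, one_smul]
        _ = -(a⁻¹ * b) • vec fstV sndV y := by rw [h2, smul_neg, smul_smul, neg_smul]

theorem dense_indep_pair (x y : Elt K F m) : (denseM K F m).Indep {x, y} :=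
  (denseM_rep _ (subset_univ _)).2 (dense_pair x y)

theorem dense_isFlat (x : Elt K F m) : (denseM K F m).IsFlat {x} := by
  have hx : (denseM K F m).Indep {x} := by
    have := dense_indep_pair (K := K) (F := F) x x
    rwa [pair_eq_singleton] at this
  have : (denseM K F m).closure {x} = {x} := by
    apply subset_antisymm
    · intro y hy
      rw [hx.mem_closure_iff'] at hy
      exact hy.2 (dense_indep_pair y x)
    · exact (denseM K F m).subset_closure {x} (subset_univ _)
  rw [← this]
  exact (denseM K F m).isFlat_closure _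

theorem card_le_numPoints : (Nat.card (Elt K F m) : ℕ∞) ≤ numPoints (denseM K F m) := by
  have hinj : Function.Injective (fun x : Elt K F m => ({x} : Set (Elt K F m))) :=
    fun x y h => Set.singleton_injective h
  have h1 : (range (fun x : Elt K F m => ({x} : Set (Elt K F m)))).encard =
      (Nat.card (Elt K F m) : ℕ∞) := by
    rw [← image_univ, hinj.encard_image, ← (toFinite _).cast_ncard_eq, Set.ncard_univ]
  rw [← h1]
  apply encard_le_encard
  rintro _ ⟨x, rfl⟩
  refine ⟨dense_isFlat x, ?_⟩
  have hx : (denseM K F m).Indep {x} := by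
    have := dense_indep_pair (K := K) (F := F) x x
    rwa [pair_eq_singleton] at this
  rw [hx.eRk_eq_encard, encard_singleton]

theorem span_dense : span F (vec (K := K) (F := F) (m := m) fstV sndV '' univ) = ⊤ := by
  set S := span F (vec (K := K) (F := F) (m := m) fstV sndV '' univ) with hS
  have h1 : ((1 : F), (0 : Fin m → F)) ∈ S := by
    refine subset_span ⟨none, mem_univ _, ?_⟩
    simp only [vec, fstV, sndV]
    ext i <;> simp
  have h2 : ∀ i : Fin m, ((0 : F), (Pi.single i (1 : F) : Fin m → F)) ∈ S := by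
    intro i
    have hne : (Pi.single i (1 : K) : Fin m → K) ≠ 0 := by
      intro h
      have := congrFun h i
      simp at this
    set P := Projectivization.mk K _ hne with hP
    have h3 : vec (K := K) (F := F) (m := m) fstV sndV (some (0, P)) ∈ S :=
      subset_span ⟨_, mem_univ _, rfl⟩
    obtain ⟨c, hc⟩ : ∃ c : K, c • P.rep = (Pi.single i (1 : K) : Fin m → K) := by
      have := P.mk_rep
      rw [hP] at this
      obtain ⟨c, hc⟩ := (Projectivization.mk_eq_mk_iff' K _ _ _ _).1 this.symm
      exact ⟨c, hc⟩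
    have h4 := S.smul_mem (algebraMap K F c) h3
    convert h4 using 1
    ext j
    · simp [vec, fstV]
    · simp only [vec, sndV, Prod.smul_snd, Pi.smul_apply, smul_eq_mul]
      rw [← map_mul]
      have := congrFun hc j
      simp only [Pi.smul_apply, smul_eq_mul] at this
      rw [this]
      by_cases hij : j = i
      · subst hij
        simp
      · simp [Pi.single_apply, hij]
  rw [eq_top_iff]
  rintro ⟨a, b⟩ -
  have h3 : ((a, b) : F × (Fin m → F)) = a • ((1 : F), (0 : Fin m → F)) +
      ∑ i, b i • ((0 : F), (Pi.single i (1 : F) : Fin m → F)) := by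
    ext j
    · simp [Prod.fst_sum]
    · simp [Prod.snd_sum, Finset.sum_apply, Pi.single_apply]
  rw [h3]
  exact add_mem (S.smul_mem _ h1) (sum_mem fun i _ => S.smul_mem _ (h2 i))

theorem dense_eRank : (denseM K F m).eRank = (m + 1 : ℕ) := by
  have : (denseM K F m).Finite := linMatroid_finite _ _ _
  have h1 := (denseM_rep (K := K) (F := F) (m := m)).rk_eq (X := univ) (subset_univ _)
  rw [span_dense, finrank_top] at h1
  have h2 : finrank F (F × (Fin m → F)) = m + 1 := by
    rw [Module.finrank_prod]
    simp [add_comm]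
  rw [h2, rk, Matroid.eRk_univ_eq] at h1
  have h3 : (denseM K F m).eRank ≠ ⊤ := by
    rw [← Matroid.eRk_univ_eq]
    exact ne_top_of_le_ne_top (Set.encard_ne_top_iff.2 (toFinite _))
      ((denseM K F m).eRk_le_encard univ)
  rw [← ENat.natCast_toNat h3, h1]

theorem dense_card {s : ℕ} (hK : Nat.card K = s) (hF : Nat.card F = s ^ 2) :
    Nat.card (Elt K F m) = (s ^ (m + 2) - 1) / (s - 1) - s := by
  have hs : 2 ≤ s := by
    rw [← hK]
    exact Finite.one_lt_card
  have h1 : Nat.card (Elt K F m) = s ^ 2 * (∑ i ∈ Finset.range m, s ^ i) + 1 := by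
    rw [Finite.card_option, Nat.card_prod, hF,
      Projectivization.card_of_finrank K (Fin m → K) (n := m) (by simp), hK]
  rw [h1, ← Nat.geomSum_eq hs, Finset.sum_range_succ', Finset.sum_range_succ']
  simp only [pow_zero, zero_add, pow_one]
  have h2 : ∑ i ∈ Finset.range m, s ^ (i + 1 + 1) = s ^ 2 * ∑ i ∈ Finset.range m, s ^ i := by
    rw [Finset.mul_sum]
    exact Finset.sum_congr rfl fun i _ => by ring
  rw [h2]
  omega

theorem dense_no_minor [FiniteDimensional K F] {r : ℕ} (hr : Nat.card K < r) {N : Matroid ℕ}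
    (hN : PlaneLike r N) : ¬ HasMinor (denseM K F m) N := by
  rintro ⟨M', hM', hiso⟩
  have hP := hN.of_iso hiso
  obtain ⟨C, D, hC, -, -, rfl⟩ := hM'.exists_eq_contract_delete_disjoint
  have hrep := (denseM_rep (K := K) (F := F) (m := m)).minor C D hC
  set M' := ((denseM K F m).contract C).delete D with hM'def
  set w := (span F (vec (K := K) (F := F) (m := m) fstV sndV '' C)).mkQ ∘
    vec (K := K) (F := F) (m := m) fstV sndV with hw
  have hfin : M'.E.Finite := toFinite _
  have hpair : ∀ x ∈ M'.E, ∀ y ∈ M'.E, LinearIndepOn F w {x, y} := by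
    intro x hx y hy
    have hsub : ({x, y} : Set _) ⊆ M'.E := by
      rintro z (rfl | rfl)
      · exact hx
      · exact hy
    rw [← hrep _ hsub]
    exact hP.pair x hx y hy
  obtain ⟨h0, h1⟩ := pair_facts w M'.E hpair
  refine no_plane (K := K) (F := F) fstV sndV C M'.E hfin r hr ?_ ?_ h0 h1 ?_
  · have := hP.card
    rw [← hfin.cast_ncard_eq] at this
    exact_mod_cast this
  · intro I hI hIi
    have := hP.rank I hI ((hrep _ hI).2 hIi)
    rw [← (toFinite I).cast_ncard_eq] at this
    exact_mod_cast this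
  · intro T hT h
    have := hP.line T hT fun I hI hIi => by
      have h2 := h I hI ((hrep _ (hI.trans hT)).1 hIi)
      rw [← (toFinite I).cast_ncard_eq]
      exact_mod_cast h2
    rw [← (toFinite T).cast_ncard_eq] at this
    exact_mod_cast this

end dense

/-- For every prime power `s` and every `q ≥ s ^ 2` there is a finite collection `𝓕` of finite
matroids in `U(q)` such that `s` is the largest prime power `r ≤ q` for which no member of `𝓕` is
`GF(r)`-representable, while for every `n ≥ 2` the size function of `EX(𝓕) ∩ U(q)` at `n` is at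
least `(s ^ (n + 1) - 1) / (s - 1) - s`, and so is larger than `(s ^ n - 1) / (s - 1)`. -/
theorem result (s q : ℕ) (hs : IsPrimePow s) (hq : s ^ 2 ≤ q) :
    ∃ 𝓕 : Set (Matroid ℕ), 𝓕.Finite ∧ (∀ N ∈ 𝓕, N.E.Finite ∧ InU q N) ∧
      IsGreatest {r : ℕ | IsPrimePow r ∧ r ≤ q ∧ ∀ N ∈ 𝓕, ¬ RepGF r N} s ∧
      ∀ n ≥ 2, (((s ^ (n + 1) - 1) / (s - 1) - s : ℕ) : ℕ∞) ≤ sizeFn q 𝓕 n ∧
        (((s ^ n - 1) / (s - 1) : ℕ) : ℕ∞) < sizeFn q 𝓕 n := by
  have hs2 : 2 ≤ s := hs.two_le
  have hex : ∀ r : ℕ, ∃ N : Matroid ℕ, IsPrimePow r →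
      (N.E.Finite ∧ PlaneLike r N ∧ RepGF r N) := by
    intro r
    by_cases hr : IsPrimePow r
    · obtain ⟨N, hN⟩ := exists_plane hr
      exact ⟨N, fun _ => hN⟩
    · exact ⟨Matroid.loopyOn ∅, fun h => absurd h hr⟩
  choose P hPall using hex
  have hPfin : ∀ r, IsPrimePow r → (P r).E.Finite := fun r hr => (hPall r hr).1
  have hPl : ∀ r, IsPrimePow r → PlaneLike r (P r) := fun r hr => (hPall r hr).2.1
  have hPr : ∀ r, IsPrimePow r → RepGF r (P r) := fun r hr => (hPall r hr).2.2
  refine ⟨P '' {r | IsPrimePow r ∧ s < r ∧ r ≤ q}, ?_, ?_, ⟨⟨hs, by nlinarith, ?_⟩, ?_⟩, ?_⟩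
  · apply Set.Finite.image
    exact (Set.finite_Iic q).subset fun r hr => hr.2.2
  · rintro _ ⟨r, ⟨hr, -, hrq⟩, rfl⟩
    refine ⟨hPfin r hr, ?_⟩
    obtain ⟨F, _, _, hF, n, v, hv⟩ := hPr r hr
    exact inU_of_rep (F := F) (v := v) hv (by omega)
  · rintro _ ⟨r, ⟨hr, hsr, -⟩, rfl⟩
    exact not_repGF_of_planeLike hsr (hPl r hr)
  · rintro r ⟨hr, hrq, hall⟩
    by_contra hsr
    push Not at hsr
    exact hall (P r) ⟨r, ⟨hr, hsr, hrq⟩, rfl⟩ (hPr r hr)
  · intro n hn
    have key : (((s ^ (n + 1) - 1) / (s - 1) - s : ℕ) : ℕ∞) ≤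
        sizeFn q (P '' {r | IsPrimePow r ∧ s < r ∧ r ≤ q}) n := by
      obtain ⟨m, rfl⟩ : ∃ m, n = m + 1 := ⟨n - 1, by omega⟩
      obtain ⟨p, k, hp, hk, hpk⟩ := (isPrimePow_nat_iff s).1 hs
      have : Fact p.Prime := ⟨hp⟩
      let K := GaloisField p k
      have hK : Nat.card K = s := by rw [GaloisField.card p k hk.ne', hpk]
      have : NeZero (2 : ℕ) := ⟨by norm_num⟩
      let F := FiniteField.Extension K p 2
      have hF : Nat.card F = s ^ 2 := by rw [FiniteField.natCard_extension, hK]
      have : Finite F := Nat.finite_of_card_ne_zero (by rw [hF]; positivity)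
      refine le_trans ?_ (le_sSup ⟨Elt K F m, denseM K F m, toFinite _, ?_, ?_, ?_, rfl⟩)
      · rw [← dense_card (m := m) hK hF]
        exact card_le_numPoints
      · exact inU_of_rep (denseM_rep (K := K) (F := F) (m := m)) (by rw [hF]; exact hq)
      · rintro _ ⟨r, ⟨hr, hsr, -⟩, rfl⟩
        exact dense_no_minor (by rw [hK]; exact hsr) (hPl r hr)
      · rw [dense_eRank]
    refine ⟨key, lt_of_lt_of_le ?_ key⟩
    rw [Nat.cast_lt, ← Nat.geomSum_eq hs2, ← Nat.geomSum_eq hs2, Finset.sum_range_succ]
    have h1 : s < s ^ n := by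
      calc s = s ^ 1 := (pow_one s).symm
        _ < s ^ n := Nat.pow_lt_pow_right hs2 (by omega)
    omega

end Pool.Agent.Results.MP_f02e69_co.KungSizeDisproof
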